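import Pool.Agent.H.MP_b542c4_co.Sym
import Pool.Agent.Lib.helper1.Cfg

set_option autoImplicit false

namespace Pool.Agent.H.MP_3f639a_co
open Complex DihedralGroup
open Pool.Agent.H.MP_b542c4_co (mem_line ph ph_inj ph_mk e e_add e_zero e_conj e_one lin lin_r
  lin_sr iso iso_apply)

abbrev Ix := Fin 3 × ZMod 12

def sp : Fin 3 → ZMod 12 := ![1, 5, 3]
def tp : Fin 3 → ZMod 12 := ![3, 1, 5]

def Inc (p l : Ix) : Prop :=
  (p.1 = l.1 ∧ (p.2 = l.2 ∨ p.2 = l.2 + sp l.1)) ∨ (p.1 = l.1 + 1 ∧ (p.2 = l.2 ∨ p.2 = l.2 + tp l.1))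

instance (p l : Ix) : Decidable (Inc p l) := by unfold Inc; infer_instance

def nx (l : Ix) : Ix := (l.1, l.2 + sp l.1)

def TA (p : Ix) : ℤ√3 × ℤ√3 :=
  ([(⟨4, 0⟩, ⟨0, 0⟩), (⟨0, 2⟩, ⟨2, 0⟩), (⟨2, 0⟩, ⟨0, 2⟩), (⟨0, 0⟩, ⟨4, 0⟩),
   (⟨-2, 0⟩, ⟨0, 2⟩), (⟨0, -2⟩, ⟨2, 0⟩), (⟨-4, 0⟩, ⟨0, 0⟩), (⟨0, -2⟩, ⟨-2, 0⟩),
   (⟨-2, 0⟩, ⟨0, -2⟩), (⟨0, 0⟩, ⟨-4, 0⟩), (⟨2, 0⟩, ⟨0, -2⟩), (⟨0, 2⟩, ⟨-2, 0⟩),
   (⟨3, 1⟩, ⟨-1, -1⟩), (⟨2, 2⟩, ⟨0, 0⟩), (⟨3, 1⟩, ⟨1, 1⟩), (⟨1, 1⟩, ⟨3, 1⟩),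
   (⟨0, 0⟩, ⟨2, 2⟩), (⟨-1, -1⟩, ⟨3, 1⟩), (⟨-3, -1⟩, ⟨1, 1⟩), (⟨-2, -2⟩, ⟨0, 0⟩),
   (⟨-3, -1⟩, ⟨-1, -1⟩), (⟨-1, -1⟩, ⟨-3, -1⟩), (⟨0, 0⟩, ⟨-2, -2⟩), (⟨1, 1⟩, ⟨-3, -1⟩),
   (⟨3, -1⟩, ⟨-1, 1⟩), (⟨-1, 1⟩, ⟨3, -1⟩), (⟨0, 0⟩, ⟨-2, 2⟩), (⟨1, -1⟩, ⟨3, -1⟩),
   (⟨-3, 1⟩, ⟨-1, 1⟩), (⟨2, -2⟩, ⟨0, 0⟩), (⟨-3, 1⟩, ⟨1, -1⟩), (⟨1, -1⟩, ⟨-3, 1⟩),
   (⟨0, 0⟩, ⟨2, -2⟩), (⟨-1, 1⟩, ⟨-3, 1⟩), (⟨3, -1⟩, ⟨1, -1⟩), (⟨-2, 2⟩, ⟨0, 0⟩)] : List (ℤ√3 × ℤ√3)).getD (12 * p.1.val + p.2.val) 0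

def ht (p : Ix) : ℤ√3 := (-1) ^ p.2.val * ![1, ⟨2, 1⟩, ⟨2, -1⟩] p.1

def T3 (p : Ix) : Fin 3 → ℤ√3 := ![(TA p).1, (TA p).2, ht p]

def det (p l : Ix) : ℤ√3 :=
  ((TA p).1 - (TA l).1) * ((TA (nx l)).2 - (TA l).2) -
    ((TA p).2 - (TA l).2) * ((TA (nx l)).1 - (TA l).1)

theorem sepL : ∀ l l' : Ix, l ≠ l' → ∃ p, Inc p l ∧ ¬ Inc p l' := by decide +kernel
theorem nx_ne : ∀ l : Ix, l ≠ nx l := by decide +kernel
theorem TA_inj : Function.Injective TA := by decide +kernel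
theorem TA_det : ∀ p l, det p l = 0 ↔ Inc p l := by decide +kernel
theorem T3_inj : Function.Injective T3 := fun _ _ h =>
  TA_inj (Prod.ext (congrFun h 0) (congrFun h 1))
theorem T3_on : ∀ p l, Lib.helper1.Cfg.On T3 id nx p l ↔ Inc p l := by decide +kernel
theorem T3_det : (Matrix.of fun i j => T3 (![(0, 1), (0, 2), (0, 3)] i) j - T3 (0, 0) j).det ≠ 0 := by
  rw [Matrix.det_fin_three]
  decide +kernel

def rt (p : Ix) : Ix := (p.1, p.2 + 1)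
def fl (p : Ix) : Ix := (p.1, ![0, 2, -2] p.1 - p.2)

theorem TA_rot : ∀ p, 2 * (TA (rt p)).1 = ⟨0, 1⟩ * (TA p).1 - (TA p).2 ∧
    2 * (TA (rt p)).2 = (TA p).1 + ⟨0, 1⟩ * (TA p).2 := by decide +kernel
theorem TA_fl : ∀ p, (TA (fl p)).1 = (TA p).1 ∧ (TA (fl p)).2 = -(TA p).2 := by decide +kernel
theorem TA_norm : ∀ p, (TA p).1 * (TA p).1 + (TA p).2 * (TA p).2 = 16 → p.1 = 0 := by
  decide +kernel
theorem TA_sum : ∑ p, (TA p).1 = 0 ∧ ∑ p, (TA p).2 = 0 := by decide +kernel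

theorem cfg1 : ∀ l, (Finset.univ.filter fun p => Inc p l).card = 4 := by decide +kernel
theorem cfg2 : ∀ p, (Finset.univ.filter fun l => Inc p l).card = 4 := by decide +kernel
theorem cfg3 : ∀ p q, p ≠ q → (Finset.univ.filter fun l => Inc p l ∧ Inc q l).card ≤ 1 := by
  decide +kernel

noncomputable def PA (p : Ix) : ℂ := ⟨ph (TA p).1, ph (TA p).2⟩
noncomputable def LA (l : Ix) : AffineSubspace ℝ ℂ := line[ℝ, PA l, PA (nx l)]

theorem realA : Function.Injective PA ∧ Function.Injective LA ∧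
    (∀ l, Module.finrank ℝ (LA l).direction = 1) ∧ ∀ p l, PA p ∈ LA l ↔ Inc p l := by
  have h1 : Function.Injective PA := fun p q h => by
    apply TA_inj
    have a := congrArg Complex.re h
    have b := congrArg Complex.im h
    exact Prod.ext (ph_inj a) (ph_inj b)
  have h4 : ∀ p l, PA p ∈ LA l ↔ Inc p l := fun p l => by
    rw [LA, mem_line _ _ _ (h1.ne (nx_ne l)), ← TA_det, ← map_eq_zero_iff ph ph_inj]
    simp [PA, det]
  refine ⟨h1, fun l l' h => ?_, fun l => ?_, h4⟩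
  · by_contra hne
    obtain ⟨p, a, b⟩ := sepL l l' hne
    exact b ((h4 p l').1 (h ▸ (h4 p l).2 a))
  · rw [LA, direction_affineSpan, vectorSpan_pair]
    exact finrank_span_singleton (vsub_ne_zero.2 (h1.ne (nx_ne l)))

theorem PA_rt (p : Ix) : PA (rt p) = e 1 * PA p := by
  obtain ⟨a, b⟩ := TA_rot p
  have a' := congrArg ph a
  have b' := congrArg ph b
  simp only [map_mul, map_sub, map_add, map_ofNat, ph_mk] at a' b'
  rw [e_one]
  apply Complex.ext <;> simp [PA] <;> push_cast at a' b' <;> linarith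

theorem PA_add (o : Fin 3) (i j : ZMod 12) : PA (o, i + j) = e j * PA (o, i) := by
  have : ∀ n : ℕ, PA (o, i + n) = e n * PA (o, i) := fun n => by
    induction n with
    | zero => simp [e_zero]
    | succ n ih =>
      have := PA_rt (o, i + n)
      rw [ih] at this
      push_cast
      rw [← add_assoc, e_add]
      exact this.trans (by ring)
  simpa using this j.val

theorem PA_fl (p : Ix) : PA (fl p) = (starRingEnd ℂ) (PA p) := by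
  obtain ⟨a, b⟩ := TA_fl p
  apply Complex.ext <;> simp [PA, a, b]

def aP : DihedralGroup 12 → Ix → Ix
  | r j, p => (p.1, p.2 + j)
  | sr j, p => fl (p.1, p.2 + j)

def aL : DihedralGroup 12 → Ix → Ix
  | r j, p => (p.1, p.2 + j)
  | sr j, p => aP (sr j) (nx p)

theorem iso_P (d : DihedralGroup 12) (p : Ix) : iso d (PA p) = PA (aP d p) := by
  rcases d with j | j
  · rw [iso_apply, lin_r, aP, PA_add]
  · rw [iso_apply, lin_sr, aP, PA_fl, PA_add]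

theorem aL_pair : ∀ (d : DihedralGroup 12) (l : Ix),
    (aP d l = aL d l ∧ aP d (nx l) = nx (aL d l)) ∨ (aP d (nx l) = aL d l ∧ aP d l = nx (aL d l)) := by
  decide +kernel

theorem iso_L (d : DihedralGroup 12) (l : Ix) : iso d '' (LA l : Set ℂ) = LA (aL d l) := by
  have h := AffineSubspace.map_span (lin d).toLinearEquiv.toLinearMap.toAffineMap {PA l, PA (nx l)}
  have h' := congrArg (fun s : AffineSubspace ℝ ℂ => (s : Set ℂ)) h
  simp only [AffineSubspace.coe_map, Set.image_pair] at h'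
  refine Eq.trans h' ?_
  change ((line[ℝ, iso d (PA l), iso d (PA (nx l))] : AffineSubspace ℝ ℂ) : Set ℂ) = _
  rw [iso_P, iso_P]
  rcases aL_pair d l with ⟨a, b⟩ | ⟨a, b⟩
  · rw [a, b]; rfl
  · rw [a, b, Set.pair_comm]; rfl

theorem aP_surj : ∀ (d : DihedralGroup 12) (q : Ix), ∃ p, aP d p = q := by decide +kernel
theorem aL_surj : ∀ (d : DihedralGroup 12) (q : Ix), ∃ p, aL d p = q := by decide +kernel
theorem aP_fst : ∀ (d : DihedralGroup 12) (q : Ix), (aP d q).1 = q.1 := by decide +kernel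
theorem aL_fst : ∀ (d : DihedralGroup 12) (q : Ix), (aL d q).1 = q.1 := by decide +kernel
theorem PA_zero : PA (0, 0) = 4 := by
  apply Complex.ext
  · change ph ⟨4, 0⟩ = _
    simp [ph_mk]
  · change ph ⟨0, 0⟩ = _
    simp [ph_mk]

theorem PA_sum : ∑ p, PA p = 0 := by
  apply Complex.ext
  · rw [re_sum]
    change ∑ p, ph (TA p).1 = 0
    rw [← map_sum, TA_sum.1, map_zero]
  · rw [im_sum]
    change ∑ p, ph (TA p).2 = 0
    rw [← map_sum, TA_sum.2, map_zero]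

theorem mem_iso (g : ℂ ≃ᵢ ℂ) (h : g '' Set.range PA = Set.range PA) : ∃ d, iso d = g := by
  have h1 : ∀ p, ∃ q, PA q = g (PA p) := fun p => by
    have : g (PA p) ∈ Set.range PA := h ▸ Set.mem_image_of_mem g ⟨p, rfl⟩
    exact this
  choose σ hσ using h1
  have hb : Function.Bijective σ := by
    apply Function.Injective.bijective_of_finite
    intro p q hpq
    apply realA.1
    apply g.injective
    rw [← hσ, ← hσ, hpq]
  have h0 : g 0 = 0 := by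
    have s1 : ∑ p, PA (σ p) = 0 := by rw [hb.sum_comp PA, PA_sum]
    have s2 : ∑ p, g.toRealLinearIsometryEquiv (PA p) = 0 := by rw [← map_sum, PA_sum, map_zero]
    simp only [IsometryEquiv.toRealLinearIsometryEquiv_apply, Finset.sum_sub_distrib, ← hσ, s1,
      Finset.sum_const] at s2
    simpa using s2
  obtain ⟨a, ha⟩ := linear_isometry_complex (g.toRealLinearIsometryEquivOfMapZero h0)
  have key : PA (σ (0, 0)) = a * 4 := by
    rw [hσ, PA_zero]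
    rcases ha with ha | ha
    · exact congrArg (fun f : ℂ ≃ₗᵢ[ℝ] ℂ => f 4) ha
    · have := congrArg (fun f : ℂ ≃ₗᵢ[ℝ] ℂ => f 4) ha
      refine this.trans ?_
      change (a : ℂ) * (starRingEnd ℂ) 4 = _
      rw [map_ofNat]
  obtain ⟨j, hj⟩ : ∃ j, (a : ℂ) = e j := by
    rcases hs : σ (0, 0) with ⟨o, j⟩
    rw [hs] at key
    have ho : o = 0 := by
      have n1 := congrArg Complex.normSq key
      rw [map_mul, Circle.normSq_coe] at n1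
      have n3 : normSq (PA (o, j)) = 16 := by
        refine n1.trans ?_
        norm_num [normSq_apply]
      rw [normSq_apply] at n3
      apply TA_norm (o, j)
      apply ph_inj
      rw [map_add, map_mul, map_mul, map_ofNat]
      exact n3
    subst ho
    refine ⟨j, ?_⟩
    have := PA_add 0 0 j
    rw [zero_add, PA_zero] at this
    exact mul_right_cancel₀ (by norm_num : (4 : ℂ) ≠ 0) (key.symm.trans this)
  rcases ha with ha | ha
  · refine ⟨r j, ?_⟩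
    ext z
    rw [iso_apply, lin_r, ← hj]
    exact (congrArg (fun f : ℂ ≃ₗᵢ[ℝ] ℂ => f z) ha).symm
  · refine ⟨sr (-j), ?_⟩
    ext z
    rw [iso_apply, lin_sr, map_mul, e_conj, neg_neg, ← hj]
    exact (congrArg (fun f : ℂ ≃ₗᵢ[ℝ] ℂ => f z) ha).symm

theorem conn1 : ∀ i : ZMod 12, ∃ l, Inc (0, i) l ∧ Inc (0, i + 1) l := by decide +kernel
theorem conn2 : ∀ p : Ix, ∃ i l, Inc (0, i) l ∧ Inc p l := by decide +kernel

theorem conn (p q : Ix) : Relation.EqvGen (fun a b => ∃ l, Inc a l ∧ Inc b l) p q := by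
  have h0 : ∀ n : ℕ, Relation.EqvGen (fun a b => ∃ l, Inc a l ∧ Inc b l) (0, 0) (0, n) := fun n => by
    induction n with
    | zero => exact .refl _
    | succ n ih =>
      push_cast
      exact .trans _ _ _ ih (.rel _ _ (conn1 n))
  have h1 : ∀ p, Relation.EqvGen (fun a b => ∃ l, Inc a l ∧ Inc b l) (0, 0) p := fun p => by
    obtain ⟨i, h⟩ := conn2 p
    have := h0 i.val
    rw [ZMod.natCast_zmod_val] at this
    exact .trans _ _ _ this (.rel _ _ h)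
  exact .trans _ _ _ (.symm _ _ (h1 p)) (h1 q)

end Pool.Agent.H.MP_3f639a_co
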